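import Mathlib
import Pool.Agent.Lib_helper7.OpIdeal.Stmt
import Pool.Agent.Lib_helper7.OpIdeal.Approx
import Pool.Agent.Lib_helper7.OpIdeal.Final

/-!
# Condition `(P_λ)` does not imply the `λ`-BAP for a Banach operator ideal

For the Banach operator ideal `A` of approximable operators (operator-norm limits of finite-rank
operators) condition `(P_λ)` holds for every Banach space and every `λ ≥ 1`, but there is a Banach
space with the approximation property which has the `λ`-BAP for `A` for no `λ`.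
-/

set_option autoImplicit false

namespace Pool.Agent.Results.MP_2b2a50_an.ApproximableIdeal

open Pool.Agent.Lib_helper7.OpIdealStmt

universe u

/-- **Main result.** Over `𝕜 = ℝ` or `ℂ` there is a Banach operator ideal `A` such that every
Banach space satisfies `(P_λ)` for `A`, for every `λ ≥ 1`, while some Banach space `X` with the
approximation property has the `λ`-BAP for `A` for no real number `λ`. -/
theorem result (𝕜 : Type) [RCLike 𝕜] :
    ∃ A : BanachOperatorIdeal.{u} 𝕜,
      (∀ (Z : Ban.{u} 𝕜) (lam : ℝ), 1 ≤ lam → CondP A Z lam) ∧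
      ∃ X : Ban.{u} 𝕜, HasAP X ∧ ∀ lam : ℝ, ¬ HasBAPFor A X lam := by
  refine ⟨Pool.Agent.Lib_helper7.OpIdeal.approximable.{u} 𝕜, ?_,
    Pool.Agent.Lib_helper7.OpIdeal.main 𝕜⟩
  intro Z lam hlam Y T hT
  obtain ⟨ι, h1, h2, h3, S, hS, hlim, hsup⟩ :=
    Pool.Agent.Lib_helper7.OpIdeal.condP_approximable 𝕜 Z Y T hT
  refine ⟨ι, h1, h2, h3, S, hS, hlim, hsup.trans ?_⟩
  have h4 : 0 ≤ (Pool.Agent.Lib_helper7.OpIdeal.approximable.{u} 𝕜).nrm T :=
    ((Pool.Agent.Lib_helper7.OpIdeal.approximable.{u} 𝕜).isNorm Z Y T hT T hT 0).1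
  exact EReal.coe_le_coe_iff.2 (mul_le_mul_of_nonneg_right hlam h4)

end Pool.Agent.Results.MP_2b2a50_an.ApproximableIdeal
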